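import Pool.Agent.W808.KZ.Stm
import Pool.Agent.H160R2.MU.T_SEPB

/-!
# KZR-SEPB1, part 1: the planar part (helper382), adapted from `Pool.Agent.W808.KZ.T_SEPB0`;
the second vertex leaves only the regions in the ball of radius `ρ + l`
-/

set_option autoImplicit false

namespace Pool.Agent.W382.KZR
open H974 H906.Cyl
open Pool.Agent.W808.KZ
open H12S (Dir hbE segD rimE H4 H3g Crs Nr sqE FD_nb FD_nb_of FD_mem_RE FD_of_mem_RE FD_div)
open Pool.Agent.H160R2.ML (nm)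
open Pool.Agent.H160R2.MU (Cel csq cpos rad prd shf BxS Bxs EP inSq PC Bad Trap Cc)
open Pool.Agent.H160R2.MU.TSEPB (sq_uniq sq_below EP_loc EP_of nb_sym hb_case BadQ farx EP_shift
  EP_shift_iff EP_red EP_union far_box ext_sq)

namespace SEPB0

theorem H4_S {d : Dir} {x0 y0 : ℤ} {r ρ : ℕ} {S CF : Set Edg} (hs : ∀ g ∈ hbE d x0 y0 ρ, g ∈ S)
    (h : H4 d x0 y0 r ρ (CF ∩ S)) : H4 d x0 y0 r ρ CF := by
  have e : (CF ∩ S) ∩ ↑(hbE d x0 y0 ρ) = CF ∩ (↑(hbE d x0 y0 ρ) : Set Edg) := by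
    ext g
    constructor
    · rintro ⟨⟨h1, -⟩, h3⟩
      exact ⟨h1, h3⟩
    · rintro ⟨h1, h3⟩
      exact ⟨⟨h1, hs g (Finset.mem_coe.1 h3)⟩, h3⟩
  unfold H4 H3g at h ⊢
  rw [e] at h
  exact h

/-- common data -/
structure Ctx (N r ρ l ν : ℕ) (S : Set Edg) (AA : Vtx → Prop) (P : Set (ℤ × ℤ)) (C CF : Set Edg)
    (u u' : Vtx) : Prop where
  hl : 1 ≤ l
  h1 : 32 * l ≤ ρ
  h2 : 32 * ρ ≤ r
  c1 : ∀ g ∈ C, g ∈ EP r P
  c2 : ∀ g ∈ CF, g ∈ S → g ∈ EP r P → g ∈ C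
  c3 : C ⊆ CF
  c4 : C ⊆ S
  un : ∃ g, g ∉ EP r P ∧ (src g = u ∨ tgt g = u)
  un' : ∃ g, g ∉ EP r P ∧ (src g = u' ∨ tgt g = u')
  uy' : ∃ g ∈ EP r P, (src g = u' ∨ tgt g = u')
  n1 : |u.1 - u'.1| ≤ 4 * l
  n2 : |u.2 - u'.2| ≤ 4 * l
  ex : ∀ R : Vtx → Prop, R u → (∀ v, R v → (|v.1 - u.1| ≤ r ∧ |v.2 - u.2| ≤ r) ∧ AA v) →
      ∃ v w, Reach (C ∩ {e | R (src e) ∧ R (tgt e)}) u v ∧ R v ∧ ¬ R w ∧
        ∃ e ∈ C, (src e = v ∧ tgt e = w) ∨ (src e = w ∧ tgt e = v)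
  ex' : ∀ R : Vtx → Prop, R u' →
      (∀ v, R v → (|v.1 - u.1| ≤ ρ + l ∧ |v.2 - u.2| ≤ ρ + l) ∧ AA v) →
      ∃ v w, Reach (C ∩ {e | R (src e) ∧ R (tgt e)}) u' v ∧ R v ∧ ¬ R w ∧
        ∃ e ∈ C, (src e = v ∧ tgt e = w) ∨ (src e = w ∧ tgt e = v)
  hD : ∀ s : ℤ, (N : ℤ) * r ≤ |u.1 - s * (ν * r : ℕ)| ∨ (N : ℤ) * r ≤ |u.2 - s * (ν * r : ℕ)|
  hext : |u.1 - u.2| ≤ 2 * ((ν * r : ℕ) : ℤ) - 2 * r
  hcor : ∀ ζ : ℤ × ℤ, |u.1 - r * ζ.1| ≤ 3 * ρ → |u.2 - r * ζ.2| ≤ 3 * ρ → ∀ v : Vtx,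
    |v.1 - r * ζ.1| < ((r / 2 : ℕ) : ℤ) → |v.2 - r * ζ.2| < ((r / 2 : ℕ) : ℤ) → AA v

/-- the edges near `u` are in `S` and the vertices near `u` satisfy `AA` -/
def Ball (S : Set Edg) (AA : Vtx → Prop) (ρ l : ℕ) (u : Vtx) : Prop := (∀ g : Edg,
  inR (u.1 - ρ - l) (u.1 + ρ + l) (u.2 - ρ - l) (u.2 + ρ + l) (src g) →
  inR (u.1 - ρ - l) (u.1 + ρ + l) (u.2 - ρ - l) (u.2 + ρ + l) (tgt g) → g ∈ S) ∧
  ∀ v : Vtx, inR (u.1 - ρ - l) (u.1 + ρ + l) (u.2 - ρ - l) (u.2 + ρ + l) v → AA v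

/-- the conclusion -/
def Con (N r ρ l ν : ℕ) (C CF : Set Edg) (u u' : Vtx) : Prop :=
  BadQ N r ρ l ν CF ∨ ∃ R : Vtx → Prop, (∀ v, R v → |v.1 - u.1| ≤ r ∧ |v.2 - u.2| ≤ r) ∧ R u ∧
    Reach (C ∩ {e | R (src e) ∧ R (tgt e)}) u u'

section
variable {N r ρ l ν : ℕ} {S : Set Edg} {AA : Vtx → Prop} {P : Set (ℤ × ℤ)} {C CF : Set Edg}
  {u u' : Vtx}

/-- near a coarse vertex -/
theorem corner (h : Ctx N r ρ l ν S AA P C CF u u') {ζ : ℤ × ℤ} (a1 : |u.1 - r * ζ.1| ≤ 3 * ρ)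
    (a2 : |u.2 - r * ζ.2| ≤ 3 * ρ) : Con N r ρ l ν C CF u u' := by
  have b1 := h.hl
  have b2 := h.h1
  have b3 := h.h2
  have hr : (0 : ℤ) < r := by have : 0 < r := by omega
                              exact_mod_cast this
  left
  left
  refine ⟨ζ, ?_, ?_, ?_⟩
  · have h1 := h.hext
    rw [abs_le] at h1 a1 a2 ⊢
    have e1 : (r : ℤ) * (ζ.1 - ζ.2) < r * (2 * ν) := by
      push_cast at h1
      have : (r : ℤ) * (ζ.1 - ζ.2) = r * ζ.1 - r * ζ.2 := by ring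
      rw [this]
      have : (r : ℤ) * (2 * ν) = 2 * (ν * r) := by ring
      rw [this]
      omega
    have e2 : (r : ℤ) * (ζ.2 - ζ.1) < r * (2 * ν) := by
      push_cast at h1
      have : (r : ℤ) * (ζ.2 - ζ.1) = r * ζ.2 - r * ζ.1 := by ring
      rw [this]
      have : (r : ℤ) * (2 * ν) = 2 * (ν * r) := by ring
      rw [this]
      omega
    have e3 := lt_of_mul_lt_mul_left e1 hr.le
    have e4 := lt_of_mul_lt_mul_left e2 hr.le
    constructor <;> linarith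
  · intro s
    have key : ∀ x ζ' : ℤ, |x - r * ζ'| ≤ 3 * ρ → (N : ℤ) * r ≤ |x - s * (ν * r : ℕ)| →
        (N : ℤ) ≤ |ζ' - s * ν| := by
      intro x ζ' h1 h2
      rw [abs_le] at h1
      have e0 : s * ((ν * r : ℕ) : ℤ) = r * (s * ν) := by push_cast; ring
      rw [e0] at h2
      rw [le_abs] at h2 ⊢
      rcases h2 with h2 | h2
      · left
        have : (r : ℤ) * N < r * (ζ' - s * ν + 1) := by
          have : (r : ℤ) * (ζ' - s * ν + 1) = r * ζ' - r * (s * ν) + r := by ring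
          rw [this]
          have : (r : ℤ) * N = N * r := by ring
          rw [this]
          omega
        have := lt_of_mul_lt_mul_left this hr.le
        omega
      · right
        have : (r : ℤ) * N < r * (-(ζ' - s * ν) + 1) := by
          have : (r : ℤ) * (-(ζ' - s * ν) + 1) = r * (s * ν) - r * ζ' + r := by ring
          rw [this]
          have : (r : ℤ) * N = N * r := by ring
          rw [this]
          omega
        have := lt_of_mul_lt_mul_left this hr.le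
        omega
    rcases h.hD s with h3 | h3
    · exact Or.inl (key _ _ a1 h3)
    · exact Or.inr (key _ _ a2 h3)
  · have a1' := a1
    have a2' := a2
    obtain ⟨A, hA⟩ : ∃ A : ℤ, A = r * ζ.1 := ⟨_, rfl⟩
    obtain ⟨B, hB⟩ : ∃ B : ℤ, B = r * ζ.2 := ⟨_, rfl⟩
    rw [← hA] at a1
    rw [← hB] at a2
    rw [← hA, ← hB]
    rw [abs_le] at a1 a2
    obtain ⟨v, w, k1, k2, k3, e, he, hvw⟩ := h.ex
      (fun v => |v.1 - A| < ((r / 2 : ℕ) : ℤ) ∧ |v.2 - B| < ((r / 2 : ℕ) : ℤ))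
      (by
        rw [abs_lt, abs_lt]
        push_cast
        omega)
      (by
        intro v hv
        refine ⟨?_, h.hcor ζ a1' a2' v (hA ▸ hv.1) (hB ▸ hv.2)⟩
        rw [abs_lt, abs_lt] at hv
        rw [abs_le, abs_le]
        push_cast at hv
        omega)
    refine ⟨u, w, ?_, ?_, ?_⟩
    · unfold inR
      push_cast
      omega
    · rw [abs_lt, abs_lt] at k3
      push_cast at k3 ⊢
      omega
    · exact (k1.mono fun g hg => h.c3 hg.1).trans (Adj.reach ⟨e, h.c3 he, hvw⟩)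

theorem dir_up (h : Ctx N r ρ l ν S AA P C CF u u') (hdi : Ball S AA ρ l u)
    {z : ℤ × ℤ} (hz : z ∈ P) (hz' : (z.1, z.2 - 1) ∉ P) (a1 : r * z.1 + 2 * ρ < u.1) (a2 : u.1 < r * z.1 + r - 2 * ρ)
    (a3 : u.2 = r * z.2) : Con N r ρ l ν C CF u u' := by
  have b1 := h.hl
  have b2 := h.h1
  have b3 := h.h2
  have hr : 1 ≤ r := by omega
  have n1 := h.n1
  have n2 := h.n2
  rw [abs_le] at n1 n2
  obtain ⟨A, hA⟩ : ∃ A : ℤ, A = (r : ℤ) * z.1 := ⟨_, rfl⟩
  obtain ⟨E, hE0⟩ : ∃ E : ℤ, E = (r : ℤ) * z.2 := ⟨_, rfl⟩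
  obtain ⟨B, hB⟩ : ∃ B : ℤ, B = E := ⟨_, rfl⟩
  have hzp : (r : ℤ) * (z.2 - 1) = E - r := by rw [hE0]; ring
  have hBj : B = r * z.2 := by rw [hB, hE0]
  -- location of squares of `P` near the line
  have tang : ∀ (q : ℤ × ℤ) (x : ℤ), A < x → x < A + r → (r : ℤ) * q.1 ≤ x → x ≤ (r : ℤ) * q.1 + r →
      q.1 = z.1 := by
    intro q x k1 k2 k3 k4
    exact sq_uniq hr (hA ▸ k1) (hA ▸ k2) k3 k4
  rw [← hA] at a1 a2
  have a3' : u.2 = B := by rw [a3, hB, hE0]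
  have hu'2 : u'.2 = B := by
    rcases lt_trichotomy u'.2 B with hlt | heq | hgt
    · exfalso
      obtain ⟨g, hg, hgu⟩ := h.uy'
      obtain ⟨q, hq, hq1⟩ : ∃ q ∈ P, inSq r q u' := by
        rcases hgu with hgu | hgu
        · obtain ⟨q, hq, hq1, -⟩ := EP_loc hg (Or.inl ⟨hgu, rfl⟩)
          exact ⟨q, hq, hq1⟩
        · obtain ⟨q, hq, -, hq1⟩ := EP_loc hg (Or.inl ⟨rfl, hgu⟩)
          exact ⟨q, hq, hq1⟩
      unfold inSq at hq1
      have k1 : q.1 = z.1 := tang q u'.1 (by omega) (by omega) (by omega) (by omega)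
      have k2 : q.2 = z.2 - 1 := by
        refine sq_uniq hr (x := u'.2) ?_ ?_ ?_ ?_
        · rw [hzp]; omega
        · rw [hzp]; omega
        · omega
        · omega
      exact hz' (by rw [← k2, ← k1]; exact hq)
    · exact heq
    · exfalso
      obtain ⟨g, hg, hgu⟩ := h.un'
      apply hg
      have hnb : ∀ w : Vtx, (w = u' ∨ FD_nb u' w) → inSq r z w := by
        intro w hw
        unfold inSq
        rw [← hA, ← hE0]
        rcases hw with rfl | hw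
        · omega
        · unfold FD_nb at hw
          omega
      rcases hgu with hgu | hgu
      · exact EP_of hz (hnb _ (Or.inl hgu)) (hnb _ (Or.inr (FD_nb_of (Or.inl ⟨hgu, rfl⟩))))
      · exact EP_of hz (hnb _ (Or.inr (FD_nb_of (Or.inr ⟨rfl, hgu⟩)))) (hnb _ (Or.inl hgu))
  obtain ⟨i, hi1, hi2⟩ : ∃ i : ℤ, (l : ℤ) * i ≤ u.1 ∧ u.1 < (l : ℤ) * i + l :=
    ⟨u.1 / l, (FD_div b1).1 rfl⟩
  obtain ⟨x0, hx0⟩ : ∃ x0 : ℤ, x0 = (l : ℤ) * i := ⟨_, rfl⟩
  rw [← hx0] at hi1 hi2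
  have hEq : hbE Dir.up x0 B ρ = RE (x0 - ρ) (x0 + ρ) B (B + ρ) := rfl
  have hrimdef : ∀ w : Vtx, w ∈ rimE Dir.up x0 B ρ ↔ (inR (x0 - ρ) (x0 + ρ) B (B + ρ) w ∧
      (w.1 = x0 - ρ ∨ w.1 = x0 + ρ ∨ w.2 = B + ρ)) := fun w => Iff.rfl
  have hsegdef : ∀ v : Vtx, v ∈ segD Dir.up x0 B (8 * l) ↔ (v.2 = B ∧ x0 - (8 * l : ℕ) ≤ v.1 ∧ v.1 ≤ x0 + (8 * l : ℕ)) := fun v => Iff.rfl
  have key : H4 Dir.up x0 B (8 * l) ρ (CF ∩ S) ∨ Reach (C ∩ {e | inR (x0 - ρ) (x0 + ρ) B (B + ρ) (src e) ∧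
      inR (x0 - ρ) (x0 + ρ) B (B + ρ) (tgt e)}) u u' := by
    refine hb_case (P := P) (r := r) (CF := CF ∩ S) h.c1 (fun g hg hg2 => h.c2 g hg.1 hg.2 hg2)
      (fun g hg => ⟨h.c3 hg, h.c4 hg⟩) hEq ?_ ?_ ?_ ?_ ?_ ?_ ?_ ?_
    · intro w w2 hw hwr g hg hgw
      rw [hrimdef] at hwr
      have hwr' : ¬ (w.1 = x0 - ρ ∨ w.1 = x0 + ρ ∨ w.2 = B + ρ) := fun hh => hwr ⟨hw, hh⟩
      obtain ⟨q, hq, hq1, hq2⟩ := EP_loc hg hgw
      have hnb := FD_nb_of hgw
      unfold inR at hw ⊢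
      unfold FD_nb at hnb
      unfold inSq at hq1 hq2
      by_cases h5 : w2.2 < B
      · exfalso
        have k1 : q.1 = z.1 := tang q w.1 (by omega) (by omega) (by omega) (by omega)
        have k2 : q.2 = z.2 - 1 := by
          refine sq_below hr ?_ ?_
          · rw [← hE0]; omega
          · rw [← hE0]; omega
        exact hz' (by rw [← k2, ← k1]; exact hq)
      · omega
    · intro g hg
      obtain ⟨g1, g2⟩ := FD_of_mem_RE hg
      unfold inR at g1 g2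
      refine EP_of hz ?_ ?_ <;> · unfold inSq
                                  rw [← hA, ← hE0]
                                  omega
    · unfold inR
      omega
    · unfold inR
      omega
    · rw [hsegdef]
      push_cast
      omega
    · rw [hsegdef]
      push_cast
      omega
    · intro R hR hR2
      refine h.ex R hR fun v hv => ⟨?_, hdi.2 v ?_⟩
      · have := hR2 v hv
        unfold inR at this
        rw [abs_le, abs_le]
        omega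
      · have := hR2 v hv
        unfold inR at this ⊢
        omega
    · intro R hR hR2
      refine h.ex' R hR fun v hv => ⟨?_, hdi.2 v ?_⟩
      · have := hR2 v hv
        unfold inR at this
        rw [abs_le, abs_le]
        omega
      · have := hR2 v hv
        unfold inR at this ⊢
        omega
  have hball : ∀ g ∈ RE (x0 - ρ) (x0 + ρ) B (B + ρ), g ∈ S := by
    intro g hg
    obtain ⟨g1, g2⟩ := FD_of_mem_RE hg
    refine hdi.1 g ?_ ?_ <;> (unfold inR at g1 g2 ⊢; omega)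
  rcases key with hres | hres
  · left
    right
    refine ⟨Dir.up, x0, B, i, z.2, ?_, ?_, ?_,
      H4_S (fun g hg => hball g (hEq ▸ hg)) hres⟩
    · have h1 := h.hext
      rw [abs_le] at h1 ⊢
      push_cast at h1 ⊢
      omega
    · intro s
      rcases h.hD s with h3 | h3
      · exact Or.inl (farx hr b1 b2 (hA ▸ a1) (hA ▸ a2) hi1 hi2 h3)
      · right
        rw [a3'] at h3
        omega
    · exact Or.inl ⟨Or.inl rfl, hx0, Or.inl hBj⟩
  · right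
    refine ⟨fun v => inR (x0 - ρ) (x0 + ρ) B (B + ρ) v, ?_, ?_, hres⟩
    · intro v hv
      unfold inR at hv
      rw [abs_le, abs_le]
      omega
    · unfold inR
      omega

theorem dir_dn (h : Ctx N r ρ l ν S AA P C CF u u') (hdi : Ball S AA ρ l u)
    {z : ℤ × ℤ} (hz : z ∈ P) (hz' : (z.1, z.2 + 1) ∉ P) (a1 : r * z.1 + 2 * ρ < u.1) (a2 : u.1 < r * z.1 + r - 2 * ρ)
    (a3 : u.2 = r * z.2 + r) : Con N r ρ l ν C CF u u' := by
  have b1 := h.hl
  have b2 := h.h1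
  have b3 := h.h2
  have hr : 1 ≤ r := by omega
  have n1 := h.n1
  have n2 := h.n2
  rw [abs_le] at n1 n2
  obtain ⟨A, hA⟩ : ∃ A : ℤ, A = (r : ℤ) * z.1 := ⟨_, rfl⟩
  obtain ⟨E, hE0⟩ : ∃ E : ℤ, E = (r : ℤ) * z.2 := ⟨_, rfl⟩
  obtain ⟨B, hB⟩ : ∃ B : ℤ, B = E + r := ⟨_, rfl⟩
  have hzp : (r : ℤ) * (z.2 + 1) = E + r := by rw [hE0]; ring
  have hBj : B = r * (z.2 + 1) := by rw [hB, hE0]; ring
  -- location of squares of `P` near the line
  have tang : ∀ (q : ℤ × ℤ) (x : ℤ), A < x → x < A + r → (r : ℤ) * q.1 ≤ x → x ≤ (r : ℤ) * q.1 + r →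
      q.1 = z.1 := by
    intro q x k1 k2 k3 k4
    exact sq_uniq hr (hA ▸ k1) (hA ▸ k2) k3 k4
  rw [← hA] at a1 a2
  have a3' : u.2 = B := by rw [a3, hB, hE0]
  have hu'2 : u'.2 = B := by
    rcases lt_trichotomy u'.2 B with hlt | heq | hgt
    · exfalso
      obtain ⟨g, hg, hgu⟩ := h.un'
      apply hg
      have hnb : ∀ w : Vtx, (w = u' ∨ FD_nb u' w) → inSq r z w := by
        intro w hw
        unfold inSq
        rw [← hA, ← hE0]
        rcases hw with rfl | hw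
        · omega
        · unfold FD_nb at hw
          omega
      rcases hgu with hgu | hgu
      · exact EP_of hz (hnb _ (Or.inl hgu)) (hnb _ (Or.inr (FD_nb_of (Or.inl ⟨hgu, rfl⟩))))
      · exact EP_of hz (hnb _ (Or.inr (FD_nb_of (Or.inr ⟨rfl, hgu⟩)))) (hnb _ (Or.inl hgu))
    · exact heq
    · exfalso
      obtain ⟨g, hg, hgu⟩ := h.uy'
      obtain ⟨q, hq, hq1⟩ : ∃ q ∈ P, inSq r q u' := by
        rcases hgu with hgu | hgu
        · obtain ⟨q, hq, hq1, -⟩ := EP_loc hg (Or.inl ⟨hgu, rfl⟩)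
          exact ⟨q, hq, hq1⟩
        · obtain ⟨q, hq, -, hq1⟩ := EP_loc hg (Or.inl ⟨rfl, hgu⟩)
          exact ⟨q, hq, hq1⟩
      unfold inSq at hq1
      have k1 : q.1 = z.1 := tang q u'.1 (by omega) (by omega) (by omega) (by omega)
      have k2 : q.2 = z.2 + 1 := by
        refine sq_uniq hr (x := u'.2) ?_ ?_ ?_ ?_
        · rw [hzp]; omega
        · rw [hzp]; omega
        · omega
        · omega
      exact hz' (by rw [← k2, ← k1]; exact hq)
  obtain ⟨i, hi1, hi2⟩ : ∃ i : ℤ, (l : ℤ) * i ≤ u.1 ∧ u.1 < (l : ℤ) * i + l :=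
    ⟨u.1 / l, (FD_div b1).1 rfl⟩
  obtain ⟨x0, hx0⟩ : ∃ x0 : ℤ, x0 = (l : ℤ) * i := ⟨_, rfl⟩
  rw [← hx0] at hi1 hi2
  have hEq : hbE Dir.dn x0 B ρ = RE (x0 - ρ) (x0 + ρ) (B - ρ) B := rfl
  have hrimdef : ∀ w : Vtx, w ∈ rimE Dir.dn x0 B ρ ↔ (inR (x0 - ρ) (x0 + ρ) (B - ρ) B w ∧
      (w.1 = x0 - ρ ∨ w.1 = x0 + ρ ∨ w.2 = B - ρ)) := fun w => Iff.rfl
  have hsegdef : ∀ v : Vtx, v ∈ segD Dir.dn x0 B (8 * l) ↔ (v.2 = B ∧ x0 - (8 * l : ℕ) ≤ v.1 ∧ v.1 ≤ x0 + (8 * l : ℕ)) := fun v => Iff.rfl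
  have key : H4 Dir.dn x0 B (8 * l) ρ (CF ∩ S) ∨ Reach (C ∩ {e | inR (x0 - ρ) (x0 + ρ) (B - ρ) B (src e) ∧
      inR (x0 - ρ) (x0 + ρ) (B - ρ) B (tgt e)}) u u' := by
    refine hb_case (P := P) (r := r) (CF := CF ∩ S) h.c1 (fun g hg hg2 => h.c2 g hg.1 hg.2 hg2)
      (fun g hg => ⟨h.c3 hg, h.c4 hg⟩) hEq ?_ ?_ ?_ ?_ ?_ ?_ ?_ ?_
    · intro w w2 hw hwr g hg hgw
      rw [hrimdef] at hwr
      have hwr' : ¬ (w.1 = x0 - ρ ∨ w.1 = x0 + ρ ∨ w.2 = B - ρ) := fun hh => hwr ⟨hw, hh⟩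
      obtain ⟨q, hq, hq1, hq2⟩ := EP_loc hg hgw
      have hnb := FD_nb_of hgw
      unfold inR at hw ⊢
      unfold FD_nb at hnb
      unfold inSq at hq1 hq2
      by_cases h5 : B < w2.2
      · exfalso
        have k1 : q.1 = z.1 := tang q w.1 (by omega) (by omega) (by omega) (by omega)
        have k2 : q.2 = z.2 + 1 := by
          have hh : z.2 = q.2 - 1 := by
            refine sq_below hr ?_ ?_
            · rw [← hE0]; omega
            · rw [← hE0]; omega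
          omega
        exact hz' (by rw [← k2, ← k1]; exact hq)
      · omega
    · intro g hg
      obtain ⟨g1, g2⟩ := FD_of_mem_RE hg
      unfold inR at g1 g2
      refine EP_of hz ?_ ?_ <;> · unfold inSq
                                  rw [← hA, ← hE0]
                                  omega
    · unfold inR
      omega
    · unfold inR
      omega
    · rw [hsegdef]
      push_cast
      omega
    · rw [hsegdef]
      push_cast
      omega
    · intro R hR hR2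
      refine h.ex R hR fun v hv => ⟨?_, hdi.2 v ?_⟩
      · have := hR2 v hv
        unfold inR at this
        rw [abs_le, abs_le]
        omega
      · have := hR2 v hv
        unfold inR at this ⊢
        omega
    · intro R hR hR2
      refine h.ex' R hR fun v hv => ⟨?_, hdi.2 v ?_⟩
      · have := hR2 v hv
        unfold inR at this
        rw [abs_le, abs_le]
        omega
      · have := hR2 v hv
        unfold inR at this ⊢
        omega
  have hball : ∀ g ∈ RE (x0 - ρ) (x0 + ρ) (B - ρ) B, g ∈ S := by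
    intro g hg
    obtain ⟨g1, g2⟩ := FD_of_mem_RE hg
    refine hdi.1 g ?_ ?_ <;> (unfold inR at g1 g2 ⊢; omega)
  rcases key with hres | hres
  · left
    right
    refine ⟨Dir.dn, x0, B, i, (z.2 + 1), ?_, ?_, ?_,
      H4_S (fun g hg => hball g (hEq ▸ hg)) hres⟩
    · have h1 := h.hext
      rw [abs_le] at h1 ⊢
      push_cast at h1 ⊢
      omega
    · intro s
      rcases h.hD s with h3 | h3
      · exact Or.inl (farx hr b1 b2 (hA ▸ a1) (hA ▸ a2) hi1 hi2 h3)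
      · right
        rw [a3'] at h3
        omega
    · exact Or.inl ⟨Or.inr rfl, hx0, Or.inl hBj⟩
  · right
    refine ⟨fun v => inR (x0 - ρ) (x0 + ρ) (B - ρ) B v, ?_, ?_, hres⟩
    · intro v hv
      unfold inR at hv
      rw [abs_le, abs_le]
      omega
    · unfold inR
      omega

theorem dir_rt (h : Ctx N r ρ l ν S AA P C CF u u') (hdi : Ball S AA ρ l u)
    {z : ℤ × ℤ} (hz : z ∈ P) (hz' : (z.1 - 1, z.2) ∉ P) (a1 : r * z.2 + 2 * ρ < u.2) (a2 : u.2 < r * z.2 + r - 2 * ρ)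
    (a3 : u.1 = r * z.1) : Con N r ρ l ν C CF u u' := by
  have b1 := h.hl
  have b2 := h.h1
  have b3 := h.h2
  have hr : 1 ≤ r := by omega
  have n1 := h.n1
  have n2 := h.n2
  rw [abs_le] at n1 n2
  obtain ⟨A, hA⟩ : ∃ A : ℤ, A = (r : ℤ) * z.2 := ⟨_, rfl⟩
  obtain ⟨E, hE0⟩ : ∃ E : ℤ, E = (r : ℤ) * z.1 := ⟨_, rfl⟩
  obtain ⟨B, hB⟩ : ∃ B : ℤ, B = E := ⟨_, rfl⟩
  have hzp : (r : ℤ) * (z.1 - 1) = E - r := by rw [hE0]; ring
  have hBj : B = r * z.1 := by rw [hB, hE0]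
  -- location of squares of `P` near the line
  have tang : ∀ (q : ℤ × ℤ) (x : ℤ), A < x → x < A + r → (r : ℤ) * q.2 ≤ x → x ≤ (r : ℤ) * q.2 + r →
      q.2 = z.2 := by
    intro q x k1 k2 k3 k4
    exact sq_uniq hr (hA ▸ k1) (hA ▸ k2) k3 k4
  rw [← hA] at a1 a2
  have a3' : u.1 = B := by rw [a3, hB, hE0]
  have hu'2 : u'.1 = B := by
    rcases lt_trichotomy u'.1 B with hlt | heq | hgt
    · exfalso
      obtain ⟨g, hg, hgu⟩ := h.uy'
      obtain ⟨q, hq, hq1⟩ : ∃ q ∈ P, inSq r q u' := by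
        rcases hgu with hgu | hgu
        · obtain ⟨q, hq, hq1, -⟩ := EP_loc hg (Or.inl ⟨hgu, rfl⟩)
          exact ⟨q, hq, hq1⟩
        · obtain ⟨q, hq, -, hq1⟩ := EP_loc hg (Or.inl ⟨rfl, hgu⟩)
          exact ⟨q, hq, hq1⟩
      unfold inSq at hq1
      have k1 : q.2 = z.2 := tang q u'.2 (by omega) (by omega) (by omega) (by omega)
      have k2 : q.1 = z.1 - 1 := by
        refine sq_uniq hr (x := u'.1) ?_ ?_ ?_ ?_
        · rw [hzp]; omega
        · rw [hzp]; omega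
        · omega
        · omega
      exact hz' (by rw [← k2, ← k1]; exact hq)
    · exact heq
    · exfalso
      obtain ⟨g, hg, hgu⟩ := h.un'
      apply hg
      have hnb : ∀ w : Vtx, (w = u' ∨ FD_nb u' w) → inSq r z w := by
        intro w hw
        unfold inSq
        rw [← hA, ← hE0]
        rcases hw with rfl | hw
        · omega
        · unfold FD_nb at hw
          omega
      rcases hgu with hgu | hgu
      · exact EP_of hz (hnb _ (Or.inl hgu)) (hnb _ (Or.inr (FD_nb_of (Or.inl ⟨hgu, rfl⟩))))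
      · exact EP_of hz (hnb _ (Or.inr (FD_nb_of (Or.inr ⟨rfl, hgu⟩)))) (hnb _ (Or.inl hgu))
  obtain ⟨i, hi1, hi2⟩ : ∃ i : ℤ, (l : ℤ) * i ≤ u.2 ∧ u.2 < (l : ℤ) * i + l :=
    ⟨u.2 / l, (FD_div b1).1 rfl⟩
  obtain ⟨x0, hx0⟩ : ∃ x0 : ℤ, x0 = (l : ℤ) * i := ⟨_, rfl⟩
  rw [← hx0] at hi1 hi2
  have hEq : hbE Dir.rt B x0 ρ = RE B (B + ρ) (x0 - ρ) (x0 + ρ) := rfl
  have hrimdef : ∀ w : Vtx, w ∈ rimE Dir.rt B x0 ρ ↔ (inR B (B + ρ) (x0 - ρ) (x0 + ρ) w ∧
      (w.1 = B + ρ ∨ w.2 = x0 - ρ ∨ w.2 = x0 + ρ)) := fun w => Iff.rfl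
  have hsegdef : ∀ v : Vtx, v ∈ segD Dir.rt B x0 (8 * l) ↔ (v.1 = B ∧ x0 - (8 * l : ℕ) ≤ v.2 ∧ v.2 ≤ x0 + (8 * l : ℕ)) := fun v => Iff.rfl
  have key : H4 Dir.rt B x0 (8 * l) ρ (CF ∩ S) ∨ Reach (C ∩ {e | inR B (B + ρ) (x0 - ρ) (x0 + ρ) (src e) ∧
      inR B (B + ρ) (x0 - ρ) (x0 + ρ) (tgt e)}) u u' := by
    refine hb_case (P := P) (r := r) (CF := CF ∩ S) h.c1 (fun g hg hg2 => h.c2 g hg.1 hg.2 hg2)
      (fun g hg => ⟨h.c3 hg, h.c4 hg⟩) hEq ?_ ?_ ?_ ?_ ?_ ?_ ?_ ?_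
    · intro w w2 hw hwr g hg hgw
      rw [hrimdef] at hwr
      have hwr' : ¬ (w.1 = B + ρ ∨ w.2 = x0 - ρ ∨ w.2 = x0 + ρ) := fun hh => hwr ⟨hw, hh⟩
      obtain ⟨q, hq, hq1, hq2⟩ := EP_loc hg hgw
      have hnb := FD_nb_of hgw
      unfold inR at hw ⊢
      unfold FD_nb at hnb
      unfold inSq at hq1 hq2
      by_cases h5 : w2.1 < B
      · exfalso
        have k1 : q.2 = z.2 := tang q w.2 (by omega) (by omega) (by omega) (by omega)
        have k2 : q.1 = z.1 - 1 := by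
          refine sq_below hr ?_ ?_
          · rw [← hE0]; omega
          · rw [← hE0]; omega
        exact hz' (by rw [← k2, ← k1]; exact hq)
      · omega
    · intro g hg
      obtain ⟨g1, g2⟩ := FD_of_mem_RE hg
      unfold inR at g1 g2
      refine EP_of hz ?_ ?_ <;> · unfold inSq
                                  rw [← hA, ← hE0]
                                  omega
    · unfold inR
      omega
    · unfold inR
      omega
    · rw [hsegdef]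
      push_cast
      omega
    · rw [hsegdef]
      push_cast
      omega
    · intro R hR hR2
      refine h.ex R hR fun v hv => ⟨?_, hdi.2 v ?_⟩
      · have := hR2 v hv
        unfold inR at this
        rw [abs_le, abs_le]
        omega
      · have := hR2 v hv
        unfold inR at this ⊢
        omega
    · intro R hR hR2
      refine h.ex' R hR fun v hv => ⟨?_, hdi.2 v ?_⟩
      · have := hR2 v hv
        unfold inR at this
        rw [abs_le, abs_le]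
        omega
      · have := hR2 v hv
        unfold inR at this ⊢
        omega
  have hball : ∀ g ∈ RE B (B + ρ) (x0 - ρ) (x0 + ρ), g ∈ S := by
    intro g hg
    obtain ⟨g1, g2⟩ := FD_of_mem_RE hg
    refine hdi.1 g ?_ ?_ <;> (unfold inR at g1 g2 ⊢; omega)
  rcases key with hres | hres
  · left
    right
    refine ⟨Dir.rt, B, x0, i, z.1, ?_, ?_, ?_,
      H4_S (fun g hg => hball g (hEq ▸ hg)) hres⟩
    · have h1 := h.hext
      rw [abs_le] at h1 ⊢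
      push_cast at h1 ⊢
      omega
    · intro s
      rcases h.hD s with h3 | h3
      · left
        rw [a3'] at h3
        omega
      · exact Or.inr (farx hr b1 b2 (hA ▸ a1) (hA ▸ a2) hi1 hi2 h3)
    · exact Or.inr ⟨Or.inl rfl, hx0, Or.inl hBj⟩
  · right
    refine ⟨fun v => inR B (B + ρ) (x0 - ρ) (x0 + ρ) v, ?_, ?_, hres⟩
    · intro v hv
      unfold inR at hv
      rw [abs_le, abs_le]
      omega
    · unfold inR
      omega

theorem dir_lf (h : Ctx N r ρ l ν S AA P C CF u u') (hdi : Ball S AA ρ l u)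
    {z : ℤ × ℤ} (hz : z ∈ P) (hz' : (z.1 + 1, z.2) ∉ P) (a1 : r * z.2 + 2 * ρ < u.2) (a2 : u.2 < r * z.2 + r - 2 * ρ)
    (a3 : u.1 = r * z.1 + r) : Con N r ρ l ν C CF u u' := by
  have b1 := h.hl
  have b2 := h.h1
  have b3 := h.h2
  have hr : 1 ≤ r := by omega
  have n1 := h.n1
  have n2 := h.n2
  rw [abs_le] at n1 n2
  obtain ⟨A, hA⟩ : ∃ A : ℤ, A = (r : ℤ) * z.2 := ⟨_, rfl⟩
  obtain ⟨E, hE0⟩ : ∃ E : ℤ, E = (r : ℤ) * z.1 := ⟨_, rfl⟩
  obtain ⟨B, hB⟩ : ∃ B : ℤ, B = E + r := ⟨_, rfl⟩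
  have hzp : (r : ℤ) * (z.1 + 1) = E + r := by rw [hE0]; ring
  have hBj : B = r * (z.1 + 1) := by rw [hB, hE0]; ring
  -- location of squares of `P` near the line
  have tang : ∀ (q : ℤ × ℤ) (x : ℤ), A < x → x < A + r → (r : ℤ) * q.2 ≤ x → x ≤ (r : ℤ) * q.2 + r →
      q.2 = z.2 := by
    intro q x k1 k2 k3 k4
    exact sq_uniq hr (hA ▸ k1) (hA ▸ k2) k3 k4
  rw [← hA] at a1 a2
  have a3' : u.1 = B := by rw [a3, hB, hE0]
  have hu'2 : u'.1 = B := by
    rcases lt_trichotomy u'.1 B with hlt | heq | hgt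
    · exfalso
      obtain ⟨g, hg, hgu⟩ := h.un'
      apply hg
      have hnb : ∀ w : Vtx, (w = u' ∨ FD_nb u' w) → inSq r z w := by
        intro w hw
        unfold inSq
        rw [← hA, ← hE0]
        rcases hw with rfl | hw
        · omega
        · unfold FD_nb at hw
          omega
      rcases hgu with hgu | hgu
      · exact EP_of hz (hnb _ (Or.inl hgu)) (hnb _ (Or.inr (FD_nb_of (Or.inl ⟨hgu, rfl⟩))))
      · exact EP_of hz (hnb _ (Or.inr (FD_nb_of (Or.inr ⟨rfl, hgu⟩)))) (hnb _ (Or.inl hgu))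
    · exact heq
    · exfalso
      obtain ⟨g, hg, hgu⟩ := h.uy'
      obtain ⟨q, hq, hq1⟩ : ∃ q ∈ P, inSq r q u' := by
        rcases hgu with hgu | hgu
        · obtain ⟨q, hq, hq1, -⟩ := EP_loc hg (Or.inl ⟨hgu, rfl⟩)
          exact ⟨q, hq, hq1⟩
        · obtain ⟨q, hq, -, hq1⟩ := EP_loc hg (Or.inl ⟨rfl, hgu⟩)
          exact ⟨q, hq, hq1⟩
      unfold inSq at hq1
      have k1 : q.2 = z.2 := tang q u'.2 (by omega) (by omega) (by omega) (by omega)
      have k2 : q.1 = z.1 + 1 := by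
        refine sq_uniq hr (x := u'.1) ?_ ?_ ?_ ?_
        · rw [hzp]; omega
        · rw [hzp]; omega
        · omega
        · omega
      exact hz' (by rw [← k2, ← k1]; exact hq)
  obtain ⟨i, hi1, hi2⟩ : ∃ i : ℤ, (l : ℤ) * i ≤ u.2 ∧ u.2 < (l : ℤ) * i + l :=
    ⟨u.2 / l, (FD_div b1).1 rfl⟩
  obtain ⟨x0, hx0⟩ : ∃ x0 : ℤ, x0 = (l : ℤ) * i := ⟨_, rfl⟩
  rw [← hx0] at hi1 hi2
  have hEq : hbE Dir.lf B x0 ρ = RE (B - ρ) B (x0 - ρ) (x0 + ρ) := rfl
  have hrimdef : ∀ w : Vtx, w ∈ rimE Dir.lf B x0 ρ ↔ (inR (B - ρ) B (x0 - ρ) (x0 + ρ) w ∧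
      (w.1 = B - ρ ∨ w.2 = x0 - ρ ∨ w.2 = x0 + ρ)) := fun w => Iff.rfl
  have hsegdef : ∀ v : Vtx, v ∈ segD Dir.lf B x0 (8 * l) ↔ (v.1 = B ∧ x0 - (8 * l : ℕ) ≤ v.2 ∧ v.2 ≤ x0 + (8 * l : ℕ)) := fun v => Iff.rfl
  have key : H4 Dir.lf B x0 (8 * l) ρ (CF ∩ S) ∨ Reach (C ∩ {e | inR (B - ρ) B (x0 - ρ) (x0 + ρ) (src e) ∧
      inR (B - ρ) B (x0 - ρ) (x0 + ρ) (tgt e)}) u u' := by
    refine hb_case (P := P) (r := r) (CF := CF ∩ S) h.c1 (fun g hg hg2 => h.c2 g hg.1 hg.2 hg2)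
      (fun g hg => ⟨h.c3 hg, h.c4 hg⟩) hEq ?_ ?_ ?_ ?_ ?_ ?_ ?_ ?_
    · intro w w2 hw hwr g hg hgw
      rw [hrimdef] at hwr
      have hwr' : ¬ (w.1 = B - ρ ∨ w.2 = x0 - ρ ∨ w.2 = x0 + ρ) := fun hh => hwr ⟨hw, hh⟩
      obtain ⟨q, hq, hq1, hq2⟩ := EP_loc hg hgw
      have hnb := FD_nb_of hgw
      unfold inR at hw ⊢
      unfold FD_nb at hnb
      unfold inSq at hq1 hq2
      by_cases h5 : B < w2.1
      · exfalso
        have k1 : q.2 = z.2 := tang q w.2 (by omega) (by omega) (by omega) (by omega)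
        have k2 : q.1 = z.1 + 1 := by
          have hh : z.1 = q.1 - 1 := by
            refine sq_below hr ?_ ?_
            · rw [← hE0]; omega
            · rw [← hE0]; omega
          omega
        exact hz' (by rw [← k2, ← k1]; exact hq)
      · omega
    · intro g hg
      obtain ⟨g1, g2⟩ := FD_of_mem_RE hg
      unfold inR at g1 g2
      refine EP_of hz ?_ ?_ <;> · unfold inSq
                                  rw [← hA, ← hE0]
                                  omega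
    · unfold inR
      omega
    · unfold inR
      omega
    · rw [hsegdef]
      push_cast
      omega
    · rw [hsegdef]
      push_cast
      omega
    · intro R hR hR2
      refine h.ex R hR fun v hv => ⟨?_, hdi.2 v ?_⟩
      · have := hR2 v hv
        unfold inR at this
        rw [abs_le, abs_le]
        omega
      · have := hR2 v hv
        unfold inR at this ⊢
        omega
    · intro R hR hR2
      refine h.ex' R hR fun v hv => ⟨?_, hdi.2 v ?_⟩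
      · have := hR2 v hv
        unfold inR at this
        rw [abs_le, abs_le]
        omega
      · have := hR2 v hv
        unfold inR at this ⊢
        omega
  have hball : ∀ g ∈ RE (B - ρ) B (x0 - ρ) (x0 + ρ), g ∈ S := by
    intro g hg
    obtain ⟨g1, g2⟩ := FD_of_mem_RE hg
    refine hdi.1 g ?_ ?_ <;> (unfold inR at g1 g2 ⊢; omega)
  rcases key with hres | hres
  · left
    right
    refine ⟨Dir.lf, B, x0, i, (z.1 + 1), ?_, ?_, ?_,
      H4_S (fun g hg => hball g (hEq ▸ hg)) hres⟩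
    · have h1 := h.hext
      rw [abs_le] at h1 ⊢
      push_cast at h1 ⊢
      omega
    · intro s
      rcases h.hD s with h3 | h3
      · left
        rw [a3'] at h3
        omega
      · exact Or.inr (farx hr b1 b2 (hA ▸ a1) (hA ▸ a2) hi1 hi2 h3)
    · exact Or.inr ⟨Or.inr rfl, hx0, Or.inl hBj⟩
  · right
    refine ⟨fun v => inR (B - ρ) B (x0 - ρ) (x0 + ρ) v, ?_, ?_, hres⟩
    · intro v hv
      unfold inR at hv
      rw [abs_le, abs_le]
      omega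
    · unfold inR
      omega

theorem planar (h : Ctx N r ρ l ν S AA P C CF u u') {z : ℤ × ℤ} (hz : z ∈ P) (hzu : inSq r z u)
    (hdi : Ball S AA ρ l u) :
    Con N r ρ l ν C CF u u' := by
  by_cases hc : ∃ ζ : ℤ × ℤ, |u.1 - r * ζ.1| ≤ 3 * ρ ∧ |u.2 - r * ζ.2| ≤ 3 * ρ
  · obtain ⟨ζ, a1, a2⟩ := hc
    exact corner h a1 a2
  · have c0 : ∀ ζ : ℤ × ℤ, ¬ (|u.1 - r * ζ.1| ≤ 3 * ρ ∧ |u.2 - r * ζ.2| ≤ 3 * ρ) :=
      fun ζ hh => hc ⟨ζ, hh⟩
    have d1 := c0 (z.1, z.2)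
    have d2 := c0 (z.1 + 1, z.2)
    have d3 := c0 (z.1, z.2 + 1)
    have d4 := c0 (z.1 + 1, z.2 + 1)
    have b1 := h.hl
    have b2 := h.h1
    have b3 := h.h2
    have e1 : (r : ℤ) * (z.1 + 1) = r * z.1 + r := by ring
    have e2 : (r : ℤ) * (z.2 + 1) = r * z.2 + r := by ring
    have e3 : (r : ℤ) * (z.1 - 1) = r * z.1 - r := by ring
    have e4 : (r : ℤ) * (z.2 - 1) = r * z.2 - r := by ring
    simp only [e1, e2, abs_le] at d1 d2 d3 d4
    obtain ⟨g, hg, hgu⟩ := h.un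
    obtain ⟨w, hw⟩ : ∃ w, (src g = u ∧ tgt g = w) ∨ (src g = w ∧ tgt g = u) := by
      rcases hgu with hgu | hgu
      · exact ⟨_, Or.inl ⟨hgu, rfl⟩⟩
      · exact ⟨_, Or.inr ⟨rfl, hgu⟩⟩
    have hnot : ∀ q ∈ P, inSq r q u → ¬ inSq r q w := by
      intro q hq k1 k2
      apply hg
      rcases hw with ⟨k3, k4⟩ | ⟨k3, k4⟩
      · exact EP_of hq (k3 ▸ k1) (k4 ▸ k2)
      · exact EP_of hq (k3 ▸ k2) (k4 ▸ k1)
    have hz1 := hnot z hz hzu
    have hnb := FD_nb_of hw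
    have hR := hnot (z.1 + 1, z.2)
    have hL := hnot (z.1 - 1, z.2)
    have hU := hnot (z.1, z.2 + 1)
    have hD := hnot (z.1, z.2 - 1)
    unfold inSq at hzu hz1 hR hL hU hD
    simp only [e1, e2, e3, e4] at hzu hz1 hR hL hU hD
    rcases hnb with ⟨k1, k2 | k2⟩ | ⟨k1, k2 | k2⟩
    · have hx : u.1 = r * z.1 + r := by omega
      refine dir_lf h hdi hz (fun hq => ?_) ?_ ?_ hx
      · exact hR hq (by omega) (by omega)
      · omega
      · omega
    · have hx : u.1 = r * z.1 := by omega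
      refine dir_rt h hdi hz (fun hq => ?_) ?_ ?_ hx
      · exact hL hq (by omega) (by omega)
      · omega
      · omega
    · have hx : u.2 = r * z.2 + r := by omega
      refine dir_dn h hdi hz (fun hq => ?_) ?_ ?_ hx
      · exact hU hq (by omega) (by omega)
      · omega
      · omega
    · have hx : u.2 = r * z.2 := by omega
      refine dir_up h hdi hz (fun hq => ?_) ?_ ?_ hx
      · exact hD hq (by omega) (by omega)
      · omega
      · omega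

end

end SEPB0

end Pool.Agent.W382.KZR
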