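import Pool.Agent.W658.KZ.Stm
import Pool.Agent.W808.KZ.T_SEPB
import Pool.Agent.W808.KZ.Per
import Pool.Agent.W956.KZR.TFRB
import Pool.Agent.W382.KZR.SEPB0

/-!
# KZR-SEPB1: the clusters of a sector and the local clusters of class `0` of the strip are far from
each other along the closed region (helper382)
-/

set_option autoImplicit false

namespace Pool.Agent.W382.KZR
open H974 H906.Cyl
open H12S (Dir hbE segD rimE H4 H3g Crs Nr sqE FD_nb FD_nb_of FD_mem_RE FD_of_mem_RE FD_div)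
open Pool.Agent.H160R2.ML (nm)
open Pool.Agent.H160R2.MU (Cel csq cpos rad prd shf BxS Bxs EP inSq PC Bad Trap Cc)
open Pool.Agent.H160R2.MU.TSEPB (EP_loc EP_of BadQ EP_union far_box ext_sq)
open Pool.Agent.W801.OU
open Pool.Agent.W808.KZ
open Pool.Agent.W808.KZ.TSEPB (Par Aw Sz mem_Sz mem_Zn dg_near aw_Sz vp_inj dg_std dg0 dg1 vp_even
  link_vp src_dco Far CC mem_CC eqv_closed eqv_isol)
open Pool.Agent.W658.KZ
open Relation (EqvGen)

section
variable {N r ρ l n : ℕ} {K : Cel} {F : Finset Edg}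

/-- a square at a vertex away from the zippers is away from the zippers -/
theorem sz_of_aw {n : ℕ} {e : Edg} {v : Vtx} (h : src e = v ∨ tgt e = v) (hv : Aw n (vp v)) :
    e ∈ Sz n := by
  rw [mem_Sz]
  obtain ⟨x, y, β⟩ := e
  rcases h with rfl | rfl
  · have hd : x - y - 1 ≤ dco (x, y, β) := by cases β <;> simp [dco]
    have e1 : (vp (src (x, y, β))).1 = x + y := rfl
    have e2 : (vp (src (x, y, β))).2 = x - y := rfl
    rcases hv with hv | hv
    · left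
      omega
    · right
      intro s
      have := hv s
      show x + y + 1 ≠ 2 * n * s ∧ x + y ≠ 2 * n * s
      omega
  · have hd : (vp (tgt (x, y, β))).1 = x + y + 1 ∧ (vp (tgt (x, y, β))).2 - 1 ≤ dco (x, y, β) := by
      cases β
      · simp only [dco, tgt, vp, Bool.false_eq_true, if_false]
        omega
      · simp only [dco, tgt, vp, if_true]
        omega
    rcases hv with hv | hv
    · left
      omega
    · right
      intro s
      have := hv s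
      show x + y + 1 ≠ 2 * n * s ∧ x + y ≠ 2 * n * s
      omega

theorem notzp {e : Edg} (h3 : e ∈ Sz n) : e ∉ zp (Zn n) := by
  rintro ⟨h4, h5⟩
  obtain ⟨s, hs⟩ := mem_Zn.1 h5
  rcases mem_Sz.1 h3 with h6 | h6
  · omega
  · exact (h6 s).1 hs

/-- squares of the configuration of step B -/
theorem per_FB (h3 : S_z3) (hN : 16 ≤ N) (hK : AdmZ N K) (hn : n = prd N N * r) {M : ℕ}
    (hF : F ⊆ CE n M) {e : Edg} :
    e ∈ per n (FB N r K n M F) ↔ e ∈ per n F ∧ (e ∈ EB N r ∪ ET N r K) := by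
  classical
  show red n e ∈ FB N r K n M F ↔ red n e ∈ F ∧ _
  unfold FB
  rw [Finset.mem_filter]
  constructor
  · rintro ⟨-, h1, h2⟩
    exact ⟨h2, h1.imp (Per.EB_red h3 hN hK hn e).1 (Per.ET_red h3 hN hK hn e).1⟩
  · rintro ⟨h1, h2⟩
    exact ⟨hF h1, h2.imp (Per.EB_red h3 hN hK hn e).2 (Per.ET_red h3 hN hK hn e).2, h1⟩

/-- a planar link is a link -/
theorem CC_RC (h3 : S_z3) (hN : 16 ≤ N) (hK : AdmZ N K) (hn : n = prd N N * r) {M : ℕ}
    (hF : F ⊆ CE n M) {v w : Vtx} (h : Reach (CC N r K n F) v w) :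
    RC n (per n (FB N r K n M F)) (vp v) (vp w) := by
  induction h with
  | refl => exact EqvGen.refl _
  | tail _ hbc ih =>
    obtain ⟨e, he, hec⟩ := hbc
    obtain ⟨k1, k2, k3⟩ := mem_CC.1 he
    have h1 : RC n (per n (FB N r K n M F)) (vp (src e)) (vp (tgt e)) :=
      EqvGen.rel _ _ ⟨e, trivial, notzp k3, Or.inl ⟨(per_FB h3 hN hK hn hF).2 ⟨k1, k2⟩,
        (dg0 k3).2 ⟨rfl, rfl⟩⟩⟩
    refine ih.trans _ _ _ ?_
    rcases hec with ⟨h3, h4⟩ | ⟨h3, h4⟩
    · rw [← h3, ← h4]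
      exact h1
    · rw [← h3, ← h4]
      exact h1.symm _ _

/-- leaving a region away from the zippers -/
theorem exit_RC (h3 : S_z3) (hN : 16 ≤ N) (hK : AdmZ N K) (hn : n = prd N N * r) {M : ℕ}
    (hF : F ⊆ CE n M) {x : ℤ × ℤ} {p : Vtx} (hxp : RC n (per n (FB N r K n M F)) x (vp p))
    (R : Vtx → Prop) (hRp : R p) (hA : ∀ v, R v → Aw n (vp v)) (hS : ∀ v, R v → vp v ≠ x) :
    ∃ v w, Reach (CC N r K n F ∩ {e | R (src e) ∧ R (tgt e)}) p v ∧ R v ∧ ¬ R w ∧
      ∃ e ∈ CC N r K n F, (src e = v ∧ tgt e = w) ∨ (src e = w ∧ tgt e = v) := by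
  by_contra hcon
  push Not at hcon
  have step : ∀ (v w : Vtx) (e : Edg), Reach (CC N r K n F ∩ {e | R (src e) ∧ R (tgt e)}) p v →
      R v → e ∈ CC N r K n F → ((src e = v ∧ tgt e = w) ∨ (src e = w ∧ tgt e = v)) →
      Reach (CC N r K n F ∩ {e | R (src e) ∧ R (tgt e)}) p w ∧ R w := by
    intro v w e h1 h2 he hvw
    by_cases hw : R w
    · refine ⟨h1.trans (Adj.reach ⟨e, ⟨he, ?_⟩, hvw⟩), hw⟩
      rcases hvw with ⟨h3, h4⟩ | ⟨h3, h4⟩
      · exact ⟨by rw [h3]; exact h2, by rw [h4]; exact hw⟩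
      · exact ⟨by rw [h3]; exact hw, by rw [h4]; exact h2⟩
    · exfalso
      have h5 := hcon v w h1 h2 hw e he
      rcases hvw with hvw | hvw
      · exact h5.1 hvw.1 hvw.2
      · exact h5.2 hvw.1 hvw.2
  have key : ∀ a b, LZ (Zn n) Set.univ (per n (FB N r K n M F)) a b →
      ((∃ v, vp v = a ∧ Reach (CC N r K n F ∩ {e | R (src e) ∧ R (tgt e)}) p v ∧ R v) ↔
       (∃ v, vp v = b ∧ Reach (CC N r K n F ∩ {e | R (src e) ∧ R (tgt e)}) p v ∧ R v)) := by
    intro a b hab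
    constructor
    · rintro ⟨v, rfl, h1, h2⟩
      obtain ⟨e, -, hz, hd⟩ := hab
      obtain ⟨k1, k2, k3, k4⟩ := (link_vp hz (hA v h2)).1 hd
      obtain ⟨k5, k6⟩ := (per_FB h3 hN hK hn hF).1 k2
      exact ⟨tgt e, k4.symm, step v (tgt e) e h1 h2 ⟨k5, k6, k1⟩ (Or.inl ⟨k3, rfl⟩)⟩
    · rintro ⟨v, rfl, h1, h2⟩
      obtain ⟨e, -, hz, hd⟩ := hab
      obtain ⟨k1, k2, k3, k4⟩ := (link_vp hz (hA v h2)).2 hd
      obtain ⟨k5, k6⟩ := (per_FB h3 hN hK hn hF).1 k2
      exact ⟨src e, k4.symm, step v (src e) e h1 h2 ⟨k5, k6, k1⟩ (Or.inr ⟨rfl, k3⟩)⟩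
  obtain ⟨v, hv, -, hv2⟩ := (eqv_closed key hxp).2 ⟨p, rfl, Reach.refl _ _, hRp⟩
  exact hS v hv2 hv

/-- leaving a region: paths -/
theorem exit_path {A : Set Edg} {p q : Vtx} (h : Reach A p q) (R : Vtx → Prop) (hp : R p)
    (hq : ¬ R q) : ∃ v w, Reach (A ∩ {e | R (src e) ∧ R (tgt e)}) p v ∧ R v ∧ ¬ R w ∧
      ∃ e ∈ A, (src e = v ∧ tgt e = w) ∨ (src e = w ∧ tgt e = v) := by
  by_contra hcon
  push Not at hcon
  have key : ∀ q, Reach A p q → Reach (A ∩ {e | R (src e) ∧ R (tgt e)}) p q ∧ R q := by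
    intro q h
    induction h with
    | refl => exact ⟨Reach.refl _ _, hp⟩
    | @tail b c _ hbc ih =>
      obtain ⟨e, he, hec⟩ := hbc
      by_cases hc : R c
      · refine ⟨ih.1.trans (Adj.reach ⟨e, ⟨he, ?_⟩, hec⟩), hc⟩
        rcases hec with ⟨h3, h4⟩ | ⟨h3, h4⟩
        · exact ⟨by rw [h3]; exact ih.2, by rw [h4]; exact hc⟩
        · exact ⟨by rw [h3]; exact hc, by rw [h4]; exact ih.2⟩
      · exfalso
        have h5 := hcon b c ih.1 ih.2 hc e he
        rcases hec with hvw | hvw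
        · exact h5.1 hvw.1 hvw.2
        · exact h5.2 hvw.1 hvw.2
  exact hq (key q h).2

/-- the squares at a vertex of the closed region are far from the zippers -/
theorem far' (h : Par N r ρ l n K) {v0 : Vtx} {e0 : Edg} (he0 : e0 ∉ EB N r)
    (he0v : src e0 = v0 ∨ tgt e0 = v0)
    (hbig : ∀ s : ℤ, (16 * ρ : ℤ) < |(vp v0).1 - 2 * n * s| ∨ (16 * ρ : ℤ) < |(vp v0).2 + 2 * N * r|)
    {e1 : Edg} (he1 : e1 ∈ EB N r ∪ ET N r K)
    (hnear : ((vp v0).2 = dco e1 ∨ (vp v0).2 = dco e1 + 1) ∧ e1.1 + e1.2.1 - 1 ≤ (vp v0).1 ∧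
      (vp v0).1 ≤ e1.1 + e1.2.1 + 1) : Far n (7 * ρ) (vp v0) := by
  have hr1 : 1 ≤ r := by have := h.h1; have := h.h2; have := h.hl; omega
  have hv1 : (vp v0).1 = v0.1 + v0.2 := rfl
  have hv2 : (vp v0).2 = v0.1 - v0.2 := rfl
  obtain ⟨u, hu⟩ : ∃ u : ℤ × ℤ, u = vp v0 := ⟨_, rfl⟩
  rw [← hu] at hbig hnear hv1 hv2 ⊢
  have hdeB : ∀ σ : ℤ, 2 * (N * r : ℤ) - 3 ≤ |u.1 + u.2 - 2 * n * σ| ∨
      2 * (N * r : ℤ) - 3 ≤ |u.1 - u.2 - 2 * n * σ| := by
    intro σ
    have h1 := far_box hr1 he0 he0v σ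
    rw [← h.hn] at h1
    obtain ⟨T, hT⟩ : ∃ T : ℤ, T = n * σ := ⟨_, rfl⟩
    have e1 : (2 * n * σ : ℤ) = 2 * T := by rw [hT]; ring
    have e2 : σ * (n : ℤ) = T := by rw [hT]; ring
    rw [e2] at h1
    rw [e1]
    simp only [le_abs] at h1 ⊢
    omega
  by_contra hfar
  unfold Far at hfar
  push Not at hfar
  obtain ⟨hf1, s, hf2⟩ := hfar
  have hNr := h.Nr
  have hn20 := h.n20
  obtain ⟨hl1, hl2, hl3⟩ := h.r64
  obtain ⟨z, hz, hz1, hz2, hext⟩ := h.src_ext he1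
  have hsd := src_dco e1
  unfold inSq at hz1
  have hr0 : (0 : ℤ) ≤ r := by positivity
  obtain ⟨R1, hR1⟩ : ∃ R1 : ℤ, R1 = r * z.1 := ⟨_, rfl⟩
  obtain ⟨R2, hR2⟩ : ∃ R2 : ℤ, R2 = r * z.2 := ⟨_, rfl⟩
  rw [← hR1, ← hR2] at hz1
  have hnr : (n : ℤ) = prd N N * r := by rw [h.hn]; push_cast; ring
  rw [abs_lt] at hf2
  rcases hz with hz | hz
  · -- a box
    obtain ⟨σ, hσ⟩ := hz
    obtain ⟨b1, b2, b3, b4⟩ := hσ
    unfold shf at b1 b2 b3 b4
    dsimp only at b1 b2 b3 b4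
    obtain ⟨T, hT⟩ : ∃ T : ℤ, T = n * σ := ⟨_, rfl⟩
    have hT' : T = r * (σ * prd N N) := by rw [hT, hnr]; ring
    have c1 : T - N * r ≤ R1 ∧ R1 + r ≤ T + N * r := by
      constructor
      · have := mul_le_mul_of_nonneg_left (show σ * (prd N N : ℤ) - N ≤ z.1 by linarith) hr0
        rw [hR1, hT']
        nlinarith
      · have := mul_le_mul_of_nonneg_left (show z.1 + 1 ≤ σ * (prd N N : ℤ) + N by omega) hr0
        rw [hR1, hT']
        nlinarith
    have c2 : T - N * r ≤ R2 ∧ R2 + r ≤ T + N * r := by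
      constructor
      · have := mul_le_mul_of_nonneg_left (show σ * (prd N N : ℤ) - N ≤ z.2 by linarith) hr0
        rw [hR2, hT']
        nlinarith
      · have := mul_le_mul_of_nonneg_left (show z.2 + 1 ≤ σ * (prd N N : ℤ) + N by omega) hr0
        rw [hR2, hT']
        nlinarith
    have hss : s = σ := by
      by_contra hne
      have e1 : (2 * n * s : ℤ) = 2 * T + 2 * n * (s - σ) := by rw [hT]; ring
      rw [e1] at hf2
      have hn0 : (0 : ℤ) ≤ n := by positivity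
      rcases lt_or_gt_of_ne hne with hlt | hgt
      · have := mul_le_mul_of_nonneg_left (show s - σ ≤ -1 by omega) hn0
        have e2 : (2 * n * (s - σ) : ℤ) = 2 * (n * (s - σ)) := by ring
        rw [e2] at hf2
        omega
      · have := mul_le_mul_of_nonneg_left (show 1 ≤ s - σ by omega) hn0
        have e2 : (2 * n * (s - σ) : ℤ) = 2 * (n * (s - σ)) := by ring
        rw [e2] at hf2
        omega
    subst hss
    have h1 := hdeB s
    have hb := hbig s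
    have e1 : (2 * n * s : ℤ) = 2 * T := by rw [hT]; ring
    have e2 : (2 * N * r : ℤ) = 2 * (N * r) := by ring
    rw [e1] at h1 hf2 hb
    rw [e2] at hb
    simp only [le_abs] at h1
    simp only [lt_abs] at hb
    omega
  · -- the tube
    have h1 := h.zip z hz s
    unfold shf at h1
    dsimp only at h1
    obtain ⟨T, hT⟩ : ∃ T : ℤ, T = n * s := ⟨_, rfl⟩
    have hT' : T = r * (s * prd N N) := by rw [hT, hnr]; ring
    have e1 : (2 * n * s : ℤ) = 2 * T := by rw [hT]; ring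
    rw [e1] at hf2
    rcases h1 with h1 | h1 | h1
    · have := mul_le_mul_of_nonneg_left (show (N : ℤ) ≤ z.1 - z.2 by linarith) hr0
      have e3 : (r : ℤ) * (z.1 - z.2) = R1 - R2 := by rw [hR1, hR2]; ring
      have e4 : (r : ℤ) * N = N * r := by ring
      rw [e3, e4] at this
      omega
    · have := mul_le_mul_of_nonneg_left (show z.1 + z.2 ≤ 2 * (s * (prd N N : ℤ)) - 6 by linarith) hr0
      have e3 : (r : ℤ) * (z.1 + z.2) = R1 + R2 := by rw [hR1, hR2]; ring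
      have e4 : (r : ℤ) * (2 * (s * (prd N N : ℤ)) - 6) = 2 * T - 6 * r := by rw [hT']; ring
      rw [e3, e4] at this
      omega
    · have := mul_le_mul_of_nonneg_left (show 2 * (s * (prd N N : ℤ)) + 5 ≤ z.1 + z.2 by linarith) hr0
      have e3 : (r : ℤ) * (z.1 + z.2) = R1 + R2 := by rw [hR1, hR2]; ring
      have e4 : (r : ℤ) * (2 * (s * (prd N N : ℤ)) + 5) = 2 * T + 5 * r := by rw [hT']; ring
      rw [e3, e4] at this
      omega

end

open Pool.Agent.W658.KZ.TFRB (link_F) in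
theorem t_SEPB1 : S_z1 → S_z2 → S_z3 → S_FRB → S_SEPB1 := by
  intro _h1 _h2 h3 hFRB c N r ρ l K hc hN hK hl h1 h2 n M hn hM F hF hBad hBZ hX s v0 v0' hxu hDu
    hDv hKL hnr
  obtain ⟨-, -, -, hext, hzip⟩ := h3 N K hN hK _ rfl
  have h : Par N r ρ l n K := ⟨hN, hl, h1, h2, hn, hext, hzip⟩
  have hNr := h.Nr
  have hn20 := h.n20
  obtain ⟨hl1, hl2, hl3⟩ := h.r64
  have hr1 : 1 ≤ r := by omega
  have hn0 : 0 < n := by
    have : (0 : ℤ) < n := by omega
    exact_mod_cast this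
  have hbig : ∀ s' : ℤ, (16 * ρ : ℤ) < |(vp v0).1 - 2 * n * s'| ∨
      (16 * ρ : ℤ) < |(vp v0).2 + 2 * N * r| := fun s' =>
    hFRB c N r ρ K hc hN hK (by omega) h2 n M hn hM F hF hBZ hX s s' (vp v0) hxu
  have hXs : ∀ y, RC n (per n (FB N r K n M F)) (scz n s c) y → ¬ XE N r K n y := by
    intro y hy hyX
    have h := Per.RC_tp hn0 (FB N r K n M F) (-s) hy
    rw [Per.tp_scz, add_neg_cancel] at h
    exact hX _ (Per.XE_tp h3 hN hK hn (-s) hyX) h
  obtain ⟨e0, he0B, he0T, he0v⟩ := hDu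
  obtain ⟨e0', he0B', he0T', he0v'⟩ := hDv
  have hvp : ∀ v : Vtx, (vp v).1 = v.1 + v.2 ∧ (vp v).2 = v.1 - v.2 := fun v => ⟨rfl, rfl⟩
  have hsec : ∀ w : Vtx, |w.1 - v0.1| ≤ r → |w.2 - v0.2| ≤ r → vp w ≠ scz n s c := by
    intro w h3 h4 hh
    have h6 := far_box hr1 he0B he0v s
    rw [← h.hn] at h6
    have h7 := (hvp w).1
    have h8 := (hvp w).2
    rw [hh] at h7 h8
    unfold scz at h7 h8
    dsimp only at h7 h8
    obtain ⟨T, hT⟩ : ∃ T : ℤ, T = n * s := ⟨_, rfl⟩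
    have e1 : (2 * n * s : ℤ) = 2 * T := by rw [hT]; ring
    have e2 : s * (n : ℤ) = T := by rw [hT]; ring
    rw [e1] at h7
    rw [e2] at h6
    rw [abs_le] at h3 h4
    simp only [le_abs] at h6
    omega
  -- a link at the vertex
  obtain ⟨e1, he1, hz1, y1, hd1⟩ : ∃ e ∈ EB N r ∪ ET N r K, e ∉ zp (Zn n) ∧ ∃ y,
      ((e ∈ per n F ∧ Dg (Zn n) 0 e (vp v0) y) ∨ (e ∉ per n F ∧ Dg (Zn n) 1 e (vp v0) y)) ∨
      ((e ∈ per n F ∧ Dg (Zn n) 0 e y (vp v0)) ∨ (e ∉ per n F ∧ Dg (Zn n) 1 e y (vp v0))) := by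
    by_contra hcon
    push Not at hcon
    refine hsec v0 (by simp) (by simp) ?_
    refine (eqv_isol (fun z => ⟨?_, ?_⟩) hxu).symm
    · intro h1
      obtain ⟨e, -, he, hB⟩ := link_F h3 hN hK hn hF (hXs _ hxu) h1
      obtain ⟨g, hg, hgz, hd⟩ := hB (EB N r ∪ ET N r K) he
      have := (hcon g hg hgz z).1
      rcases hd with hd | hd
      · exact this.1 hd.1 hd.2
      · exact this.2 hd.1 hd.2
    · intro h1
      have hz : RC n (per n (FB N r K n M F)) (scz n s c) z :=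
        hxu.trans _ _ _ ((EqvGen.rel _ _ h1).symm _ _)
      obtain ⟨e, -, he, hB⟩ := link_F h3 hN hK hn hF (hXs _ hz) h1
      obtain ⟨g, hg, hgz, hd⟩ := hB (EB N r ∪ ET N r K) he
      have := (hcon g hg hgz z).2
      rcases hd with hd | hd
      · exact this.1 hd.1 hd.2
      · exact this.2 hd.1 hd.2
  have hnear : ((vp v0).2 = dco e1 ∨ (vp v0).2 = dco e1 + 1) ∧ e1.1 + e1.2.1 - 1 ≤ (vp v0).1 ∧
      (vp v0).1 ≤ e1.1 + e1.2.1 + 1 := by
    rcases hd1 with (⟨-, hd⟩ | ⟨-, hd⟩) | (⟨-, hd⟩ | ⟨-, hd⟩)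
    · exact ⟨(dg_near hd).1.1, (dg_near hd).2.1⟩
    · exact ⟨(dg_near hd).1.1, (dg_near hd).2.1⟩
    · exact ⟨(dg_near hd).1.2, (dg_near hd).2.2⟩
    · exact ⟨(dg_near hd).1.2, (dg_near hd).2.2⟩
  have hfar : Far n (7 * ρ) (vp v0) := far' h he0B he0v hbig he1 hnear
  have hu2 : |(vp v0).2| ≤ 3 * (N * r) + 3 * r + 1 := by
    rcases hd1 with hd | hd
    · exact (h.lz_ext ⟨e1, he1, hz1, hd⟩).1
    · exact (h.lz_ext ⟨e1, he1, hz1, hd⟩).2
  have hAu : Aw n (vp v0) := hfar.aw (by simp; omega) (by simp; omega)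
  obtain ⟨hn1, hn2⟩ := hnr
  have hinc : src e1 = v0 ∨ tgt e1 = v0 := by
    rcases hd1 with hd | hd
    · exact Or.inl ((link_vp hz1 hAu).1 hd).2.2.1
    · exact Or.inr ((link_vp hz1 hAu).2 hd).2.2.1
  obtain ⟨z, hz, hzs, hzt, -⟩ := h.src_ext he1
  have hzu : inSq r z v0 := by
    rcases hinc with hh | hh
    · rw [← hh]; exact hzs
    · rw [← hh]; exact hzt
  obtain ⟨w0, g0, hg0, hg0Y, hg0w, hreach0⟩ := hKL
  have huy' : ∃ g ∈ EB N r ∪ ET N r K, (src g = v0' ∨ tgt g = v0') := by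
    rcases Relation.ReflTransGen.cases_tail hreach0 with hh | ⟨b, -, g, hg, hgb⟩
    · exact ⟨g0, hg0, hh ▸ hg0w⟩
    · refine ⟨g, hg.2.1, ?_⟩
      rcases hgb with hgb | hgb
      · exact Or.inr hgb.2
      · exact Or.inl hgb.1
  have hfarw : ¬ (|w0.1 - v0.1| ≤ ρ + l ∧ |w0.2 - v0.2| ≤ ρ + l) := by
    rintro ⟨a1, a2⟩
    apply hg0Y
    have near : ∀ (g : Edg) (v : Vtx), (src g = v ∨ tgt g = v) →
        (g.1 ≤ v.1 ∧ v.1 ≤ g.1 + 1) ∧ g.2.1 ≤ v.2 ∧ v.2 ≤ g.2.1 + 1 := by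
      rintro ⟨x, y, β⟩ v (rfl | rfl)
      · show (x ≤ x ∧ x ≤ x + 1) ∧ y ≤ y ∧ y ≤ y + 1
        omega
      · cases β
        · show (x ≤ x ∧ x ≤ x + 1) ∧ y ≤ y + 1 ∧ y + 1 ≤ y + 1
          omega
        · show (x ≤ x + 1 ∧ x + 1 ≤ x + 1) ∧ y ≤ y ∧ y ≤ y + 1
          omega
    have n0 := near _ _ he0v
    have nw := near _ _ hg0w
    rw [abs_le] at a1 a2
    refine ⟨hg0, ⟨e0, he0B, he0T, ?_, ?_⟩, ?_⟩
    · rw [abs_le]
      omega
    · rw [abs_le]
      omega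
    · rintro ⟨σ, b1, b2⟩
      have hb := hbig σ
      rw [(hvp v0).1, (hvp v0).2] at hb
      obtain ⟨T, hT⟩ : ∃ T : ℤ, T = n * σ := ⟨_, rfl⟩
      have e1 : (2 * n * σ : ℤ) = 2 * T := by rw [hT]; ring
      have e2 : (2 * N * r : ℤ) = 2 * (N * r) := by ring
      rw [← hT] at b1 b2
      rw [e1, e2] at hb
      rw [abs_le] at b1 b2
      simp only [lt_abs] at hb
      omega
  have hctx : SEPB0.Ctx N r ρ l (prd N N) (Sz n) (fun v => Aw n (vp v)) (Bxs N N ∪ TubZ N K)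
      (CC N r K n F) (per n F) v0 v0' :=
    { hl := h.hl
      h1 := h.h1
      h2 := by have := h.h2; omega
      c1 := fun g hg => by
        rw [EP_union]
        exact (mem_CC.1 hg).2.1
      c2 := fun g hg1 hg2 hg3 => by
        rw [EP_union] at hg3
        exact mem_CC.2 ⟨hg1, hg3, hg2⟩
      c3 := fun g hg => (mem_CC.1 hg).1
      c4 := fun g hg => (mem_CC.1 hg).2.2
      un := ⟨e0, by rw [EP_union]; rintro (hh | hh); exacts [he0B hh, he0T hh], he0v⟩
      un' := ⟨e0', by rw [EP_union]; rintro (hh | hh); exacts [he0B' hh, he0T' hh], he0v'⟩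
      uy' := by
        obtain ⟨g, hg, hgv⟩ := huy'
        exact ⟨g, by rw [EP_union]; exact hg, hgv⟩
      n1 := hn1
      n2 := hn2
      ex := fun R hRu hR => exit_RC h3 hN hK hn hF hxu R hRu (fun v hv => (hR v hv).2)
        (fun v hv => hsec v (hR v hv).1.1 (hR v hv).1.2)
      ex' := fun R hRu hR => by
        obtain ⟨v, w, k1, k2, k3, g, hg, hgvw⟩ := exit_path hreach0.symm R hRu
          (fun hh => hfarw (hR w0 hh).1)
        refine ⟨v, w, k1.mono ?_, k2, k3, g, ?_, hgvw⟩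
        · rintro g ⟨⟨q1, q2⟩, q3⟩
          exact ⟨mem_CC.2 ⟨q1, q2.1, sz_of_aw (Or.inl rfl) (hR _ q3.1).2⟩, q3⟩
        · refine mem_CC.2 ⟨hg.1, hg.2.1, sz_of_aw (v := v) ?_ (hR _ k2).2⟩
          rcases hgvw with hh | hh
          · exact Or.inl hh.1
          · exact Or.inr hh.2
      hD := fun s => far_box hr1 he0B he0v s
      hext := by
        have e1 : ((prd N N * r : ℕ) : ℤ) = n := by rw [h.hn]
        rw [e1]
        rw [(hvp v0).2, abs_le] at hu2
        rw [abs_le]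
        omega
      hcor := by
        intro ζ a1 a2 v b1 b2
        obtain ⟨R1, hR1⟩ : ∃ R1 : ℤ, R1 = r * ζ.1 := ⟨_, rfl⟩
        obtain ⟨R2, hR2⟩ : ∃ R2 : ℤ, R2 = r * ζ.2 := ⟨_, rfl⟩
        rw [← hR1] at a1 b1
        rw [← hR2] at a2 b2
        rw [abs_le] at a1 a2
        rw [abs_lt] at b1 b2
        push_cast at b1 b2
        have hr0 : (0 : ℤ) < r := by exact_mod_cast hr1
        have c1' := (hvp v0).1
        have c2' := (hvp v0).2
        rcases hfar with hf | hf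
        · left
          rw [(hvp v).2]
          have k1 : (r : ℤ) * 0 < r * (ζ.1 - ζ.2) := by
            have : (r : ℤ) * (ζ.1 - ζ.2) = R1 - R2 := by rw [hR1, hR2]; ring
            rw [this]
            omega
          have k2 := lt_of_mul_lt_mul_left k1 hr0.le
          have k3 := mul_le_mul_of_nonneg_left (show 1 ≤ ζ.1 - ζ.2 by omega) hr0.le
          have k4 : (r : ℤ) * (ζ.1 - ζ.2) = R1 - R2 := by rw [hR1, hR2]; ring
          rw [k4] at k3
          omega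
        · right
          intro s
          rw [(hvp v).1]
          have hf' := hf s
          have hT : (2 * n * s : ℤ) = r * (2 * (prd N N * s)) := by
            rw [h.hn]; push_cast; ring
          obtain ⟨q, hq⟩ : ∃ q : ℤ, q = ζ.1 + ζ.2 - 2 * (prd N N * s) := ⟨_, rfl⟩
          have k4 : (r : ℤ) * q = R1 + R2 - 2 * n * s := by rw [hq, hT, hR1, hR2]; ring
          obtain ⟨T, hT2⟩ : ∃ T : ℤ, T = 2 * n * s := ⟨_, rfl⟩
          rw [← hT2] at k4 hf' ⊢
          rw [le_abs] at hf'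
          rcases hf' with hf' | hf'
          · have k1 : (r : ℤ) * 0 < r * q := by
              rw [k4]
              omega
            have k2 := lt_of_mul_lt_mul_left k1 hr0.le
            have k3 := mul_le_mul_of_nonneg_left (show 1 ≤ q by omega) hr0.le
            rw [k4] at k3
            right
            omega
          · have k1 : (r : ℤ) * q < r * 0 := by
              rw [k4]
              omega
            have k2 := lt_of_mul_lt_mul_left k1 hr0.le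
            have k3 := mul_le_mul_of_nonneg_left (show q ≤ -1 by omega) hr0.le
            rw [k4] at k3
            left
            omega }
  have hball : SEPB0.Ball (Sz n) (fun v => Aw n (vp v)) ρ l v0 := by
    have hb : ∀ v : Vtx, inR (v0.1 - ρ - l) (v0.1 + ρ + l) (v0.2 - ρ - l) (v0.2 + ρ + l) v →
        Aw n (vp v) := by
      intro v hv
      unfold inR at hv
      refine hfar.aw ?_ ?_
      · rw [(hvp v).1, (hvp v0).1]
        have : |v.1 + v.2 - (v0.1 + v0.2)| ≤ 2 * (ρ + l) := by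
          rw [abs_le]
          omega
        omega
      · rw [(hvp v).2, (hvp v0).2]
        have : |v.1 - v.2 - (v0.1 - v0.2)| ≤ 2 * (ρ + l) := by
          rw [abs_le]
          omega
        omega
    exact ⟨fun g hg _ => sz_of_aw (Or.inl rfl) (hb _ hg), hb⟩
  rcases SEPB0.planar hctx hz hzu hball with hbad | ⟨R, -, -, hreach⟩
  · exfalso
    apply hBad
    have hCc : Cc 0 n M F = per n F := by
      unfold Cc
      simp
    unfold Bad
    rw [hCc]
    unfold BadQ at hbad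
    rw [← h.hn] at hbad
    exact hbad
  · exact CC_RC h3 hN hK hn hF (hreach.mono Set.inter_subset_left)

end Pool.Agent.W382.KZR
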